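import Pool.Agent.K3h44.SQ.Stm

/-!
# A number field containing a square root (brick FLD)
-/

set_option autoImplicit false

namespace Pool.Agent.K3h35.SQ

open NumberField IsDedekindDomain

/-- brick FLD -/
theorem t_FLD : Pool.Agent.K3h44.SQ.S_FLD := by
  intro a
  obtain ⟨z, hz⟩ := IsAlgClosed.exists_pow_nat_eq ((a : ℤ) : ℂ) (n := 2) two_pos
  have hzi : IsIntegral ℤ z := by
    refine IsIntegral.of_pow two_pos ?_
    rw [hz]
    exact isIntegral_algebraMap (x := a)
  have hzq : IsIntegral ℚ z := hzi.tower_top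
  let K : IntermediateField ℚ ℂ := IntermediateField.adjoin ℚ {z}
  have hfd : FiniteDimensional ℚ K := IntermediateField.adjoin.finiteDimensional hzq
  have hK : NumberField K := { to_charZero := inferInstance, to_finiteDimensional := hfd }
  let x : K := ⟨z, IntermediateField.mem_adjoin_simple_self ℚ z⟩
  have hx : x ^ 2 = ((a : ℤ) : K) := by
    apply Subtype.ext
    change z ^ 2 = (((a : ℤ) : K) : ℂ)
    rw [hz]
    simp
  have hxi : IsIntegral ℤ x := by
    refine IsIntegral.of_pow two_pos ?_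
    rw [hx]
    exact isIntegral_algebraMap (x := a)
  obtain ⟨s, hs⟩ : ∃ s : 𝓞 K, algebraMap (𝓞 K) K s = x :=
    (IsIntegralClosure.isIntegral_iff (A := 𝓞 K)).1 hxi
  refine ⟨K, inferInstance, hK, s, ?_⟩
  apply RingOfIntegers.coe_injective
  calc algebraMap (𝓞 K) K (s ^ 2) = (algebraMap (𝓞 K) K s) ^ 2 := map_pow _ _ _
    _ = ((a : ℤ) : K) := by rw [hs, hx]
    _ = algebraMap (𝓞 K) K (a : 𝓞 K) := (map_intCast _ _).symm

end Pool.Agent.K3h35.SQ
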